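import Pool.Agent.BER.StmtsE

/-!
# IRR of squad BER: invariant functions are radial
-/

namespace Pool.Agent.BER.H95

open Set Filter Topology MeasureTheory Metric
open scoped InnerProductSpace ENNReal
open Pool.Agent.BE01 Pool.Agent.BEL Pool.Agent.BEF Pool.Agent.BEN Pool.Agent.BEH Pool.Agent.BEG

noncomputable section

/-- The radii. -/
def rr (n : ℕ) : ℝ := 1 / ((n : ℝ) + 1)

theorem rr_pos (n : ℕ) : 0 < rr n := by unfold rr; positivity

theorem rr_tendsto : Tendsto rr atTop (𝓝[>] 0) := by
  rw [tendsto_nhdsWithin_iff]
  exact ⟨tendsto_one_div_add_atTop_nhds_zero_nat, Eventually.of_forall fun n => rr_pos n⟩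

/-- Averages over balls. -/
def AA {d : ℕ} (v : En d → ℝ) (n : ℕ) (x : En d) : ℝ := ⨍ y in closedBall x (rr n), v y

theorem AA_inv {d : ℕ} (v : En d → ℝ) (g : En d ≃ₗᵢ[ℝ] En d)
    (h : (fun x => v (g x)) =ᵐ[volume] v) (n : ℕ) (x : En d) : AA v n (g x) = AA v n x := by
  have hmp : MeasurePreserving g (volume : Measure (En d)) volume :=
    LinearIsometryEquiv.measurePreserving g
  have hemb : MeasurableEmbedding g := g.toHomeomorph.measurableEmbedding
  have hpre : g ⁻¹' closedBall (g x) (rr n) = closedBall x (rr n) := by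
    ext y
    simp [mem_closedBall]
  have h1 : ∫ y in closedBall (g x) (rr n), v y = ∫ y in closedBall x (rr n), v (g y) := by
    rw [← hpre, hmp.setIntegral_preimage_emb hemb]
  have h2 : ∫ y in closedBall x (rr n), v (g y) = ∫ y in closedBall x (rr n), v y :=
    integral_congr_ae (ae_restrict_of_ae h)
  have h3 : volume (closedBall (g x) (rr n)) = volume (closedBall x (rr n)) := by
    rw [← hpre, hmp.measure_preimage_emb hemb]
  unfold AA
  rw [setAverage_eq, setAverage_eq, measureReal_def, measureReal_def, h1, h2, h3]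

theorem AA_meas {d : ℕ} (v : En d → ℝ) (hv : StronglyMeasurable v) (n : ℕ) :
    StronglyMeasurable (AA v n) := by
  have h0 : AA v n = fun x => (volume (closedBall (0 : En d) (rr n))).toReal⁻¹ *
      ∫ y, {p : En d × En d | dist p.2 p.1 ≤ rr n}.indicator (fun p => v p.2) (x, y) := by
    funext x
    unfold AA
    rw [setAverage_eq, measureReal_def, Measure.addHaar_closedBall_center volume x,
      smul_eq_mul, ← integral_indicator measurableSet_closedBall]
    rfl
  rw [h0]
  refine StronglyMeasurable.const_mul ?_ _
  have hm : MeasurableSet {p : En d × En d | dist p.2 p.1 ≤ rr n} :=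
    measurableSet_le (measurable_snd.dist measurable_fst) measurable_const
  have h1 : StronglyMeasurable
      ({p : En d × En d | dist p.2 p.1 ≤ rr n}.indicator (fun p => v p.2)) :=
    (hv.comp_measurable measurable_snd).indicator hm
  exact h1.integral_prod_right'

theorem irr : IrrStmt := by
  intro d Ω u hd hΩ hS hI
  have hfin : IsFiniteMeasure (mu Ω) := by
    refine ⟨?_⟩
    rw [mu, Measure.restrict_apply_univ]
    exact hΩ.2.1.measure_lt_top
  let v : En d → ℝ := Ω.indicator u
  have hvm : StronglyMeasurable v := (Lp.stronglyMeasurable u).indicator hΩ.1.measurableSet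
  have hvi : Integrable v volume := by
    rw [integrable_indicator_iff hΩ.1.measurableSet]
    exact (Lp.memLp u).integrable (by norm_num)
  -- invariance
  have hinv : ∀ g : En d ≃ₗᵢ[ℝ] En d, (fun x => v (g x)) =ᵐ[volume] v := by
    intro g
    have hg : (g, (0 : En d)) ∈ GO d := rfl
    have hmv : ∀ x, mv (g, (0 : En d)) x = g x := fun x => by simp [mv]
    have him : ∀ x, g x ∈ Ω ↔ x ∈ Ω := by
      intro x
      have h1 := hS _ hg
      constructor
      · intro hx
        rw [← h1] at hx
        obtain ⟨y, hy, hxy⟩ := hx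
        rw [hmv] at hxy
        have : y = x := g.injective hxy
        rwa [← this]
      · intro hx
        rw [← h1]
        exact ⟨x, hx, hmv x⟩
    have h2 := hI _ hg
    have h3 : ∀ᵐ x ∂volume, x ∈ Ω → u (g x) = u x := by
      have := (ae_restrict_iff' hΩ.1.measurableSet).1 h2
      filter_upwards [this] with x hx hxΩ
      have := hx hxΩ
      rwa [hmv] at this
    filter_upwards [h3] with x hx
    by_cases hxΩ : x ∈ Ω
    · simp only [v]
      rw [indicator_of_mem hxΩ, indicator_of_mem ((him x).2 hxΩ)]
      exact hx hxΩ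
    · simp only [v]
      rw [indicator_of_notMem hxΩ, indicator_of_notMem (fun h => hxΩ ((him x).1 h))]
  have hAinv : ∀ (n : ℕ) (x y : En d), ‖x‖ = ‖y‖ → AA v n x = AA v n y := by
    intro n x y hxy
    have h1 : Submodule.reflection (Submodule.span ℝ {y - x})ᗮ y = x :=
      Submodule.reflection_sub hxy.symm
    rw [← h1]
    exact AA_inv v _ (hinv _) n y
  let e : En d := EuclideanSpace.single ⟨0, hd⟩ 1
  have he : ‖e‖ = 1 := by simp [e]
  let f : ℝ → ℝ := fun r => limUnder atTop (fun n => AA v n (r • e))
  have hf : Measurable f := by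
    have h1 : StronglyMeasurable f := by
      refine StronglyMeasurable.limUnder (l := atTop) (f := fun (n : ℕ) (r : ℝ) => AA v n (r • e)) ?_
      intro n
      exact (AA_meas v hvm n).comp_measurable (measurable_id.smul_const e)
    exact h1.measurable
  refine ⟨f, hf, ?_⟩
  have hleb := IsUnifLocDoublingMeasure.ae_tendsto_average (volume : Measure (En d))
    hvi.locallyIntegrable 1
  have hmain : ∀ᵐ x ∂volume, v x = f ‖x‖ := by
    filter_upwards [hleb] with x hx
    have h1 : Tendsto (fun n => AA v n x) atTop (𝓝 (v x)) :=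
      hx (fun _ => x) rr rr_tendsto (Eventually.of_forall fun n => by
        rw [mem_closedBall, dist_self, one_mul]; exact (rr_pos n).le)
    have h2 : (fun n => AA v n x) = fun n => AA v n (‖x‖ • e) := by
      funext n
      refine hAinv n _ _ ?_
      rw [norm_smul, he, mul_one, norm_norm]
    rw [h2] at h1
    exact h1.limUnder_eq.symm
  refine (ae_restrict_iff' hΩ.1.measurableSet).2 ?_
  filter_upwards [hmain] with x hx hxΩ
  rw [← hx]
  simp only [v]
  rw [indicator_of_mem hxΩ]

end

end Pool.Agent.BER.H95
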